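import Mathlib
import Pool.Agent.Work.MP_574bbd_an.OB.Cnt

/-!
# Bernoulli shifts over arbitrary countable groups: independent generating partitions with a finite
window on one side

No soficity is assumed. The translates of the partition are independent, and either the partition reads
finitely many coordinates, or the coordinate `x 1` can be decoded from finitely many translates.
-/

namespace Pool.Agent.Results.MP_574bbd_an.FiniteWindowGenerators

open MeasureTheory

/-- The shift on `G → L`: `(shift g x) h = x (h g)`. -/
def shift {G L : Type} [Group G] (g : G) (x : G → L) : G → L := fun h => x (h * g)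

/-- The Bernoulli measure on `G → L` with base `lam`. -/
noncomputable def bernoulli (G : Type) {L : Type} [MeasurableSpace L] (lam : Measure L) :
    Measure (G → L) :=
  Measure.infinitePi fun _ : G => lam

/-- The Shannon entropy of a measure on a finite set. -/
noncomputable def baseEntropy {L : Type} [Fintype L] [MeasurableSpace L] (lam : Measure L) : ℝ :=
  ∑ a : L, Real.negMulLog (lam.real {a})

/-- The Shannon entropy of the partition `α : X → K` (`K` will be finite). -/
noncomputable def entropy {X K : Type} [MeasurableSpace X] (μ : Measure X) (α : X → K) : ℝ :=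
  ∑' k : K, Real.negMulLog (μ.real (α ⁻¹' {k}))

/-- `α` is generating for the shift (as in the frozen statement). -/
def Generating {G L K : Type} [Group G] [MeasurableSpace L] (μ : Measure (G → L))
    (α : (G → L) → K) : Prop :=
  ∀ B : Set (G → L), MeasurableSet B → ∃ A : Set (G → L),
    MeasurableSet[⨆ g : G, MeasurableSpace.comap (fun x : G → L => α (shift g x)) ⊤] A ∧
      μ (symmDiff A B) = 0

/-- `f` depends on finitely many coordinates. -/
def FiniteWindow {G A B : Type} (f : (G → A) → B) : Prop :=
  ∃ W : Finset G, ∀ x y : G → A, (∀ g ∈ W, x g = y g) → f x = f y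

/-- `x 1` is decoded by `δ` from the translates `α (shift g x)`, for almost every `x`. -/
def Decodes {G L K : Type} [Group G] [MeasurableSpace L] (μ : Measure (G → L))
    (α : (G → L) → K) (δ : (G → K) → L) : Prop :=
  ∀ᵐ x ∂μ, δ (fun g => α (shift g x)) = x 1

/-- Let `G` be any countable group, `lam` a probability measure of full support on the finite set
`L` with at least two elements, and `α` a countable partition of the Bernoulli shift over `lam` into
sets of positive measure, with independent translates. Suppose that (E) `α` is generating and
depends on finitely many coordinates, or (D) `x 1` is almost everywhere decoded from the translates of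
`α` by a function depending on finitely many coordinates. Then `α` is finite and
`H(α) ≥ H(m, 1 - m)` for `m = min lam(a)`, which is `H(lam)` if `L` has two elements. In case (E) the
cell of the constant point `a` has measure `exp (H(lam) - H(α)) lam(a)`, so that `H(α) ≥ H(lam)` if the
numbers `lam(a)` are pairwise different; in case (D)
`lam(δ(constant k)) = exp (H(α) - H(lam)) μ(α = k)`. -/
theorem result (G L K : Type) [Group G] [Countable G] [Fintype L] [Countable K]
    [MeasurableSpace L] [MeasurableSingletonClass L] [MeasurableSpace K]
    [MeasurableSingletonClass K] (lam : Measure L) [IsProbabilityMeasure lam]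
    (hlam : ∀ a : L, lam {a} ≠ 0) (hL : 2 ≤ Fintype.card L) (α : (G → L) → K)
    (hα : Measurable α) (hpos : ∀ k : K, bernoulli G lam (α ⁻¹' {k}) ≠ 0)
    (hind : ProbabilityTheory.iIndepFun (fun (g : G) (x : G → L) => α (shift g x))
      (bernoulli G lam)) :
    ((Generating (bernoulli G lam) α ∧ FiniteWindow α ∨
        ∃ δ : (G → K) → L, FiniteWindow δ ∧ Decodes (bernoulli G lam) α δ) →
      Finite K ∧
      (∀ m : ℝ, 0 ≤ m → (∀ a : L, m ≤ lam.real {a}) →
        Real.negMulLog m + Real.negMulLog (1 - m) ≤ entropy (bernoulli G lam) α) ∧
      (Fintype.card L = 2 → baseEntropy lam ≤ entropy (bernoulli G lam) α)) ∧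
    (Generating (bernoulli G lam) α → FiniteWindow α →
      (∀ a : L, (bernoulli G lam).real (α ⁻¹' {α fun _ => a}) =
        Real.exp (baseEntropy lam - entropy (bernoulli G lam) α) * lam.real {a}) ∧
      ((∀ a b : L, lam {a} = lam {b} → a = b) →
        baseEntropy lam ≤ entropy (bernoulli G lam) α)) ∧
    (∀ δ : (G → K) → L, FiniteWindow δ → Decodes (bernoulli G lam) α δ →
      ∀ k : K, lam.real {δ fun _ => k} =
        Real.exp (entropy (bernoulli G lam) α - baseEntropy lam) *
          (bernoulli G lam).real (α ⁻¹' {k})) := by
  have hent : ∀ [Fintype K], entropy (bernoulli G lam) α =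
      ∑ k, Real.negMulLog ((bernoulli G lam).real (α ⁻¹' {k})) := by
    intro _
    exact tsum_fintype _
  have hfinE : FiniteWindow α → Finite K := fun hw =>
    Pool.Agent.Work.MP_574bbd_an.OB.finite_cells G L K lam α hpos hw
  have hfinD : ∀ δ : (G → K) → L, FiniteWindow δ → Decodes (bernoulli G lam) α δ → Finite K := by
    intro δ hδ hd
    obtain ⟨V, hV⟩ := hδ
    exact Pool.Agent.Work.MP_574bbd_an.OB.finite_letters G L K lam α hlam hα hpos hind V δ hV hd
  have hfin : (Generating (bernoulli G lam) α ∧ FiniteWindow α ∨
        ∃ δ : (G → K) → L, FiniteWindow δ ∧ Decodes (bernoulli G lam) α δ) → Finite K := by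
    rintro (⟨-, hw⟩ | ⟨δ, hδ, hd⟩)
    · exact hfinE hw
    · exact hfinD δ hδ hd
  have hmain : (Generating (bernoulli G lam) α ∧ FiniteWindow α ∨
        ∃ δ : (G → K) → L, FiniteWindow δ ∧ Decodes (bernoulli G lam) α δ) →
      ∀ m : ℝ, 0 ≤ m → (∀ a : L, m ≤ lam.real {a}) →
        Real.negMulLog m + Real.negMulLog (1 - m) ≤ entropy (bernoulli G lam) α := by
    intro hside m h0 hm
    have hK := hfin hside
    have : Fintype K := Fintype.ofFinite K
    rw [← Real.binEntropy_eq_negMulLog_add_negMulLog_one_sub, hent]
    exact Pool.Agent.Work.MP_574bbd_an.OB.one_side G L K lam α hlam hα hpos hind hside hL m h0 hm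
  refine ⟨fun hside => ⟨hfin hside, hmain hside, fun hL2 => ?_⟩, fun hg hw => ?_,
    fun δ hδ hd => ?_⟩
  · classical
    obtain ⟨x, y, hxy, huniv⟩ := Finset.card_eq_two.1 (by rw [Finset.card_univ, hL2] :
      (Finset.univ : Finset L).card = 2)
    have hp1 : lam.real {x} + lam.real {y} = 1 := by
      have h3 : ∑ a, lam.real {a} = 1 := by
        rw [sum_measureReal_singleton, Finset.coe_univ, probReal_univ]
      rw [huniv, Finset.sum_pair hxy] at h3
      exact h3
    have hbase : baseEntropy lam =
        Real.negMulLog (lam.real {x}) + Real.negMulLog (lam.real {y}) := by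
      rw [baseEntropy, huniv, Finset.sum_pair hxy]
    have hcov : ∀ a : L, a = x ∨ a = y := fun a => by
      have := Finset.mem_univ a
      rw [huniv] at this
      simpa using this
    rcases le_total (lam.real {x}) (lam.real {y}) with h | h
    · have h3 := hmain hside (lam.real {x}) measureReal_nonneg fun a => by
        rcases hcov a with rfl | rfl
        · exact le_refl _
        · exact h
      have h4 : 1 - lam.real {x} = lam.real {y} := by linarith
      rw [h4] at h3
      rw [hbase]
      exact h3
    · have h3 := hmain hside (lam.real {y}) measureReal_nonneg fun a => by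
        rcases hcov a with rfl | rfl
        · exact h
        · exact le_refl _
      have h4 : 1 - lam.real {y} = lam.real {x} := by linarith
      rw [h4] at h3
      rw [hbase]
      linarith
  · have hK := hfinE hw
    have : Fintype K := Fintype.ofFinite K
    obtain ⟨h1, -⟩ := Pool.Agent.Work.MP_574bbd_an.OB.all_FIN G L K lam α hlam hα hpos hind
    rw [hent]
    exact h1 hg hw
  · have hK := hfinD δ hδ hd
    have : Fintype K := Fintype.ofFinite K
    obtain ⟨-, h2⟩ := Pool.Agent.Work.MP_574bbd_an.OB.all_FIN G L K lam α hlam hα hpos hind
    obtain ⟨V, hV⟩ := hδ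
    rw [hent]
    exact (h2 V δ hV hd).1

end Pool.Agent.Results.MP_574bbd_an.FiniteWindowGenerators
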