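import Mathlib
import Pool.Agent.Work.MP_574bbd_an.RK.All2

/-!
# Positive Rokhlin entropy: one group decides

Rokhlin entropy is written as in the frozen statement: countable partitions are measurable maps
`α : X → ℕ`, and Rokhlin entropy at least `ε` means that every countable generating partition has
Shannon entropy at least `ε` (partitions of infinite entropy satisfy this anyway).
-/

namespace Pool.Agent.Results.MP_574bbd_an.OneGroup

open MeasureTheory

/-- The maps `T g : X → X`, `g : G`, on the measure space `(X, μ)` have Rokhlin entropy at least `ε`: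
every countable partition `α` which is generating (every measurable set agrees, up to a null set, with
a set of the smallest sigma-algebra that makes all `α ∘ T g` measurable) has Shannon entropy at
least `ε`. -/
def RokhlinGe {G X : Type} [MeasurableSpace X] (μ : Measure X) (T : G → X → X) (ε : ℝ) : Prop :=
  ∀ α : X → ℕ, Measurable α →
    (∀ B : Set X, MeasurableSet B → ∃ A : Set X,
      MeasurableSet[⨆ g : G, MeasurableSpace.comap (fun x : X => α (T g x)) ⊤] A ∧
        μ (symmDiff A B) = 0) →
    Summable (fun n : ℕ => Real.negMulLog ((μ (α ⁻¹' {n})).toReal)) →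
    ε ≤ ∑' n : ℕ, Real.negMulLog ((μ (α ⁻¹' {n})).toReal)

/-- `G` has a free ergodic probability measure preserving action on a standard Borel space with
positive Rokhlin entropy (the formula of the frozen statement). -/
def HasErgodic (G : Type) [Group G] : Prop :=
  ∃ (X : Type) (_ : MeasurableSpace X) (_ : StandardBorelSpace X) (μ : Measure X)
    (_ : IsProbabilityMeasure μ) (_ : MulAction G X),
    (∀ g : G, MeasurePreserving (fun x : X => g • x) μ μ) ∧
    (∀ g : G, g ≠ 1 → μ {x : X | g • x = x} = 0) ∧
    (∀ s : Set X, MeasurableSet s → (∀ g : G, (fun x : X => g • x) ⁻¹' s = s) →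
      μ s = 0 ∨ μ s = 1) ∧
    ∃ ε : ℝ, 0 < ε ∧ RokhlinGe μ (fun (g : G) (x : X) => g • x) ε

/-- The same without ergodicity. -/
def HasFree (G : Type) [Group G] : Prop :=
  ∃ (X : Type) (_ : MeasurableSpace X) (_ : StandardBorelSpace X) (μ : Measure X)
    (_ : IsProbabilityMeasure μ) (_ : MulAction G X),
    (∀ g : G, MeasurePreserving (fun x : X => g • x) μ μ) ∧
    (∀ g : G, g ≠ 1 → μ {x : X | g • x = x} = 0) ∧
    ∃ ε : ℝ, 0 < ε ∧ RokhlinGe μ (fun (g : G) (x : X) => g • x) ε

/-- The product measure of fair coins on `{0,1}^G`. -/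
noncomputable def coins (G : Type) : Measure (G → Bool) :=
  Measure.infinitePi fun _ : G => (PMF.uniformOfFintype Bool).toMeasure

/-- The Bernoulli shift over `G` with the base `{1/2, 1/2}` has Rokhlin entropy at least `ε`. -/
def BernoulliGe (G : Type) [Group G] (ε : ℝ) : Prop :=
  RokhlinGe (coins G) (fun (g : G) (x : G → Bool) => fun h : G => x (h * g)) ε

/-- There is a finite code of entropy and error at most `ε` over the group `G`: an encoder `φ` that
reads the coins at the places `w i`, and a decoder `D` that reads the letters written by the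
encoder at the places `f j`. With `(G → Bool)` carrying fair coins, the letter
`φ (x (w 1), ..., x (w p))` has Shannon entropy at most `ε`, and the coin `x 1` is decoded wrongly with
probability at most `ε`. -/
def HasCode (G : Type) [Group G] (ε : ℝ) : Prop :=
  ∃ (p q k : ℕ) (w : Fin p → G) (f : Fin q → G) (φ : (Fin p → Bool) → Fin k)
    (D : (Fin q → Fin k) → Bool),
    ∑ a : Fin k, Real.negMulLog ((coins G).real {x | (φ fun i => x (w i)) = a}) ≤ ε ∧
    (coins G).real {x | (D fun j => φ fun i => x (w i * f j)) ≠ x 1} ≤ ε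

/-- Every finitely presented group embeds in `U`. -/
def ContainsFp (U : Type) [Group U] : Prop :=
  ∀ (n : ℕ) (rels : Set (FreeGroup (Fin n))), rels.Finite →
    ∃ f : PresentedGroup rels →* U, Function.Injective f

/-- Such countable groups exist (the direct sum of all finitely presented groups). -/
theorem exists_containsFp : ∃ (U : Type) (_ : Group U), Countable U ∧ ContainsFp U :=
  Pool.Agent.Work.MP_574bbd_an.RK.pr_EXI

theorem ergodic_iff (G : Type) [Group G] :
    HasErgodic G ↔ Pool.Agent.Work.MP_574bbd_an.RK.Pos G := Iff.rfl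

theorem free_iff (G : Type) [Group G] :
    HasFree G ↔ Pool.Agent.Work.MP_574bbd_an.RK.FreePos G := Iff.rfl

theorem bernoulli_iff (G : Type) [Group G] (ε : ℝ) :
    BernoulliGe G ε ↔ Pool.Agent.Work.MP_574bbd_an.RK.LB G
      (Pool.Agent.Work.MP_574bbd_an.RK.bm G Pool.Agent.Work.MP_574bbd_an.RK.coin) ε := Iff.rfl

theorem code_iff (G : Type) [Group G] (ε : ℝ) :
    HasCode G ε ↔ ∃ c : Pool.Agent.Work.MP_574bbd_an.RK.Cd G Bool,
      Pool.Agent.Work.MP_574bbd_an.RK.IsCd Pool.Agent.Work.MP_574bbd_an.RK.coin ε ε c := by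
  have key : ∀ (p q k : ℕ) (w : Fin p → G) (f : Fin q → G) (φ : (Fin p → Bool) → Fin k)
      (D : (Fin q → Fin k) → Bool),
      (∑ a : Fin k, Real.negMulLog ((coins G).real {x | (φ fun i => x (w i)) = a}) ≤ ε ∧
        (coins G).real {x | (D fun j => φ fun i => x (w i * f j)) ≠ x 1} ≤ ε) ↔
      Pool.Agent.Work.MP_574bbd_an.RK.IsCd Pool.Agent.Work.MP_574bbd_an.RK.coin ε ε
        ⟨p, q, k, w, f, φ, D⟩ := by
    intro p q k w f φ D
    have h1 : (fun x : G → Bool => φ fun i => x (w i)) = fun x : G → Bool =>
        φ fun i => x (1 * w i) := by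
      funext x
      simp only [one_mul]
    have h2 : (fun x : G → Bool => D fun j => φ fun i => x (w i * f j)) =
        fun x : G → Bool => D fun j => φ fun i => x (1 * w i * f j) := by
      funext x
      simp only [one_mul]
    have h3 : ∀ a : Fin k, {x : G → Bool | (φ fun i => x (w i)) = a} =
        {x : G → Bool | (φ fun i => x (1 * w i)) = a} := fun a => by
      ext x
      simp only [one_mul]
    have h4 : {x : G → Bool | (D fun j => φ fun i => x (w i * f j)) ≠ x 1} =
        {x : G → Bool | (D fun j => φ fun i => x (1 * w i * f j)) ≠ x 1} := by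
      ext x
      simp only [one_mul]
    simp only [h3, h4]
    exact Iff.rfl
  constructor
  · rintro ⟨p, q, k, w, f, φ, D, h⟩
    exact ⟨⟨p, q, k, w, f, φ, D⟩, (key p q k w f φ D).1 h⟩
  · rintro ⟨⟨p, q, k, w, f, φ, D⟩, h⟩
    exact ⟨p, q, k, w, f, φ, D, (key p q k w f φ D).2 h⟩

/-- Let `U` be a countable group that contains every finitely presented group. The following are
equivalent: (1) every countably infinite group has a free ergodic action of positive Rokhlin
entropy; (2) `U` has one; (3) `U` has a free action of positive Rokhlin entropy; (4) the Bernoulli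
shift `{0,1}^U` has positive Rokhlin entropy; (5) there is one positive lower bound for the Rokhlin
entropies of the Bernoulli shifts `{0,1}^G` over all groups `G`; (6) for some `ε > 0` no finitely
presented group has a finite code of entropy and error at most `ε`. -/
theorem result (U : Type) [Group U] [Countable U] (hU : ContainsFp U) :
    List.TFAE [
      ∀ (G : Type) [Group G] [Countable G] [Infinite G], HasErgodic G,
      HasErgodic U,
      HasFree U,
      ∃ ε : ℝ, 0 < ε ∧ BernoulliGe U ε,
      ∃ ε : ℝ, 0 < ε ∧ ∀ (G : Type) [Group G], BernoulliGe G ε,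
      ∃ ε : ℝ, 0 < ε ∧ ∀ (n : ℕ) (rels : Set (FreeGroup (Fin n))), rels.Finite →
        ¬ HasCode (PresentedGroup rels) ε] := by
  have hinf : Infinite U := Pool.Agent.Work.MP_574bbd_an.RK.pr_INF U hU
  tfae_have 1 → 2 := fun h1 => h1 U
  tfae_have 2 → 3 := by
    rintro ⟨X, i1, i2, μ, i3, i4, h1, h2, -, h3⟩
    exact ⟨X, i1, i2, μ, i3, i4, h1, h2, h3⟩
  tfae_have 3 → 4 := Pool.Agent.Work.MP_574bbd_an.RK.all_BER U
  tfae_have 4 → 5 := by
    rintro ⟨ε, hε, h4⟩
    exact ⟨ε, hε, fun G _ => Pool.Agent.Work.MP_574bbd_an.RK.all_MINL G U Bool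
      Pool.Agent.Work.MP_574bbd_an.RK.coin ε
      (Pool.Agent.Work.MP_574bbd_an.RK.all_LOCU U hU G) h4⟩
  tfae_have 5 → 1 := by
    rintro ⟨ε, hε, h5⟩ G _ _ _
    exact Pool.Agent.Work.MP_574bbd_an.RK.all_PB G ε hε (h5 G)
  tfae_have 5 → 6 := by
    intro h5
    obtain ⟨ε, hε, h6⟩ := Pool.Agent.Work.MP_574bbd_an.RK.all_NCD.1 h5
    refine ⟨ε, hε, fun n rels hr hc => ?_⟩
    obtain ⟨c, hc⟩ := (code_iff _ ε).1 hc
    exact h6 n rels hr c hc
  tfae_have 6 → 5 := by
    rintro ⟨ε, hε, h6⟩
    refine Pool.Agent.Work.MP_574bbd_an.RK.all_NCD.2 ⟨ε, hε, fun n rels hr c hc => ?_⟩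
    exact h6 n rels hr ((code_iff _ ε).2 ⟨c, hc⟩)
  tfae_finish

end Pool.Agent.Results.MP_574bbd_an.OneGroup
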