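import Mathlib
import Pool.Agent.Work.MP_574bbd_an.RK.All2

/-!
# Rokhlin entropy of Bernoulli shifts and approximation by wreath products

Countable partitions are measurable maps `α : X → ℕ` (as in the frozen statement). The base of a
Bernoulli shift is a finite set `L` with a probability measure `ν`.
-/

namespace Pool.Agent.Results.MP_574bbd_an.WreathApproximation

open MeasureTheory

/-- The Bernoulli shift over `G` with the base `(L, ν)`, the maps `x ↦ (h ↦ x (h g))` of `G → L` with the
product measure, has Rokhlin entropy at least `ρ`: every countable partition `α` which is generating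
(every measurable set agrees, up to a null set, with a set of the smallest sigma-algebra that makes
all translates of `α` measurable) has Shannon entropy at least `ρ`. -/
def BernoulliGe (G : Type) [Group G] {L : Type} [MeasurableSpace L] (ν : Measure L) (ρ : ℝ) :
    Prop :=
  ∀ α : (G → L) → ℕ, Measurable α →
    (∀ B : Set (G → L), MeasurableSet B → ∃ A : Set (G → L),
      MeasurableSet[⨆ g : G, MeasurableSpace.comap
        (fun x : G → L => α (fun h : G => x (h * g))) ⊤] A ∧
        (Measure.infinitePi fun _ : G => ν) (symmDiff A B) = 0) →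
    Summable (fun n : ℕ => Real.negMulLog
      (((Measure.infinitePi fun _ : G => ν) (α ⁻¹' {n})).toReal)) →
    ρ ≤ ∑' n : ℕ, Real.negMulLog (((Measure.infinitePi fun _ : G => ν) (α ⁻¹' {n})).toReal)

/-- The maps `σ : G → (Fin m → Fin m)` and `c : G → (Fin m → N)`, i.e. the maps
`(n, v) ↦ (c g v * n, σ g v)` of `N × Fin m`, `g : G`, behave at the point `v` on the finite set `E` like a
free action of `G`: `1` acts trivially, products of two elements of `E` are respected, and different
elements of `E` move the point differently. -/
def Good {G N : Type} [Group G] [Group N] {m : ℕ} (σ : G → Fin m → Fin m)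
    (c : G → Fin m → N) (E : Finset G) (v : Fin m) : Prop :=
  (σ 1 v = v ∧ c 1 v = 1) ∧
  (∀ g ∈ E, ∀ h ∈ E, σ (g * h) v = σ g (σ h v) ∧ c (g * h) v = c g (σ h v) * c h v) ∧
  ∀ g ∈ E, ∀ h ∈ E, g ≠ h → σ g v ≠ σ h v ∨ c g v ≠ c h v

open Classical in
/-- Let `(L, ν)` be a finite probability space and `ρ` a real number. Suppose that for every finite
set `E` in the group `G` and every `ε > 0` there are a group `N`, an `m ≥ 1` and maps `σ`, `c` as above for
which at least `(1 - ε) m` points are good for `E`, such that the Bernoulli shift over `N` with the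
base `(L^m, ν^m)` has Rokhlin entropy at least `m ρ`. Then the Bernoulli shift over `G` with the base
`(L, ν)` has Rokhlin entropy at least `ρ`. -/
theorem result (G L : Type) [Group G] [Fintype L] [MeasurableSpace L]
    [MeasurableSingletonClass L] (ν : Measure L) [IsProbabilityMeasure ν] (ρ : ℝ)
    (h : ∀ (E : Finset G) (ε : ℝ), 0 < ε → ∃ (N : Type) (_ : Group N) (m : ℕ)
      (σ : G → Fin m → Fin m) (c : G → Fin m → N), 0 < m ∧
      (1 - ε) * (m : ℝ) ≤ ((Finset.univ.filter fun v => Good σ c E v).card : ℝ) ∧
      BernoulliGe N (Measure.pi fun _ : Fin m => ν) (m * ρ)) :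
    BernoulliGe G ν ρ :=
  Pool.Agent.Work.MP_574bbd_an.RK.all_Wr G L ν ρ h

end Pool.Agent.Results.MP_574bbd_an.WreathApproximation
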